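import Pool.Agent.W757.SG.Defs

/-!
SG-ABS2: the nested discs.
-/

set_option autoImplicit false

open Filter Topology Metric Set
open Pool.Agent.H384R2.Fatou

namespace Pool.Agent.W308.SG.ABS2

open Pool.Agent.W757.SG

/-- composition of inverse branches -/
def gg (Φ : ℕ → ℂ → ℂ) : ℕ → ℂ → ℂ
  | 0 => id
  | j + 1 => gg Φ j ∘ Φ j

/-- abstract version: discs and inverse branches -/
theorem abs2 (f : ℂ → ℂ) (a : ℕ → ℂ) (d ρ : ℕ → ℝ) (Φ : ℕ → ℂ → ℂ)
    (hd : ∀ j, 0 < d j) (hρ : ∀ j, 0 < ρ j)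
    (hΦd : ∀ j, DifferentiableOn ℂ (Φ j) (ball 0 (ρ j)))
    (hΦm : ∀ j, MapsTo (Φ j) (ball 0 (ρ j)) (ball (a j) (d j)))
    (hΦf : ∀ j, ∀ w ∈ ball (0 : ℂ) (ρ j), f (Φ j w) = w)
    (hΦi : ∀ j, ∀ z ∈ ball (a j) (d j), f z ∈ ball (0 : ℂ) (ρ j) → Φ j (f z) = z)
    (hnest : ∀ j, ball (a (j + 1)) (d (j + 1)) ⊆ closedBall 0 (ρ j / 10)) :
    ∃ p : ℂ, (∀ j, f^[j] p ∈ ball (a j) (d j)) ∧ ∀ ε : ℝ, 0 < ε → ∃ j : ℕ,
      (∀ x ∈ {z | ∀ i ≤ j, f^[i] z ∈ ball (a i) (d i)}, dist x p < ε) ∧
      ∃ q ∈ {z | ∀ i ≤ j, f^[i] z ∈ ball (a i) (d i)}, f^[j + 1] q = 0 := by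
  set D : ℕ → Set ℂ := fun j => {z | ∀ i ≤ j, f^[i] z ∈ ball (a i) (d i)} with hD
  have hsub : ∀ j, closedBall (0 : ℂ) (ρ j / 10) ⊆ ball 0 (ρ j) := fun j =>
    closedBall_subset_ball (by linarith [hρ j])
  set g := gg Φ with hg
  have hg1 : ∀ j w, g (j + 1) w = g j (Φ j w) := fun j w => rfl
  -- the step
  have hE : ∀ j, (∀ w ∈ ball (a j) (d j), g j w ∈ D j ∧ f^[j] (g j w) = w) →
      ∀ w ∈ ball (0 : ℂ) (ρ j), g (j + 1) w ∈ D j ∧ f^[j + 1] (g (j + 1) w) = w := by
    intro j h w hw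
    rw [hg1]
    have h1 := h (Φ j w) (hΦm j hw)
    refine ⟨h1.1, ?_⟩
    rw [Function.iterate_succ_apply', h1.2]
    exact hΦf j w hw
  have hA : ∀ j, ∀ w ∈ ball (a j) (d j), g j w ∈ D j ∧ f^[j] (g j w) = w := by
    intro j
    induction j with
    | zero =>
      intro w hw
      refine ⟨?_, rfl⟩
      intro i hi
      have : i = 0 := by omega
      subst this
      exact hw
    | succ j ih =>
      intro w hw
      have h1 := hE j ih w (hsub j (hnest j hw))
      refine ⟨?_, h1.2⟩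
      intro i hi
      rcases Nat.lt_or_ge i (j + 1) with h | h
      · exact h1.1 i (by omega)
      · have : i = j + 1 := by omega
        subst this
        rw [h1.2]
        exact hw
  have hE' := fun j => hE j (hA j)
  have hB : ∀ j, DifferentiableOn ℂ (g j) (ball (a j) (d j)) := by
    intro j
    induction j with
    | zero => exact differentiableOn_id
    | succ j ih =>
      have h1 : DifferentiableOn ℂ (g j ∘ Φ j) (ball 0 (ρ j)) := ih.comp (hΦd j) (hΦm j)
      exact h1.mono ((hnest j).trans (hsub j))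
  have hB' : ∀ j, DifferentiableOn ℂ (g (j + 1)) (ball 0 (ρ j)) := fun j =>
    (hB j).comp (hΦd j) (hΦm j)
  have hC : ∀ j, ∀ z ∈ D j, g j (f^[j] z) = z := by
    intro j
    induction j with
    | zero => intro z _; rfl
    | succ j ih =>
      intro z hz
      have h1 : z ∈ D j := fun i hi => hz i (by omega)
      have h2 : f^[j] z ∈ ball (a j) (d j) := hz j (by omega)
      have h3 : f^[j + 1] z ∈ ball (a (j + 1)) (d (j + 1)) := hz (j + 1) le_rfl
      rw [hg1]
      rw [Function.iterate_succ_apply'] at h3 ⊢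
      rw [hΦi j _ h2 (hsub j (hnest j h3))]
      exact ih z h1
  -- diameters
  have hdiam : ∀ j, ∀ x ∈ D j, ∀ y ∈ D j, dist x y ≤ 2 * d 0 / 2 ^ j := by
    intro j
    induction j with
    | zero =>
      intro x hx y hy
      have h1 : dist x (a 0) < d 0 := hx 0 le_rfl
      have h2 : dist y (a 0) < d 0 := hy 0 le_rfl
      have := dist_triangle_right x y (a 0)
      simp only [pow_zero, div_one]
      linarith
    | succ j ih =>
      have hd0 : 0 < 2 * d 0 / 2 ^ j := by have := hd 0; positivity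
      set e : ℝ := 2 * d 0 / 2 ^ j with he
      have h0 : (0 : ℂ) ∈ ball (0 : ℂ) (ρ j) := mem_ball_self (hρ j)
      have hmaps : MapsTo (g (j + 1)) (ball 0 (ρ j)) (closedBall (g (j + 1) 0) (2 * e)) := by
        intro w hw
        have h1 := ih _ (hE' j w hw).1 _ (hE' j 0 h0).1
        rw [mem_closedBall]
        linarith
      have key : ∀ x ∈ D (j + 1), dist x (g (j + 1) 0) ≤ e / 5 := by
        intro x hx
        have hx1 : f^[j + 1] x ∈ ball (a (j + 1)) (d (j + 1)) := hx (j + 1) le_rfl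
        have hx2 := hnest j hx1
        have h1 := Complex.dist_le_div_mul_dist_of_mapsTo_ball (hB' j) hmaps (hsub j hx2)
        rw [hC (j + 1) x hx] at h1
        rw [mem_closedBall] at hx2
        have h2 : 2 * e / ρ j * dist (f^[j + 1] x) 0 ≤ 2 * e / ρ j * (ρ j / 10) :=
          mul_le_mul_of_nonneg_left hx2 (div_nonneg (by linarith) (hρ j).le)
        have h3 : 2 * e / ρ j * (ρ j / 10) = e / 5 := by
          have := (hρ j).ne'
          field_simp
          norm_num
        linarith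
      intro x hx y hy
      have h1 := key x hx
      have h2 := key y hy
      have h3 := dist_triangle_right x y (g (j + 1) 0)
      have h4 : 2 * d 0 / 2 ^ (j + 1) = e / 2 := by
        rw [he, pow_succ]; field_simp
      rw [h4]
      linarith
  -- the compact sets
  have hcomp : (⋂ j, g (j + 1) '' closedBall (0 : ℂ) (ρ j / 10)).Nonempty := by
    have hc : ∀ j, IsCompact (g (j + 1) '' closedBall (0 : ℂ) (ρ j / 10)) := fun j =>
      (isCompact_closedBall _ _).image_of_continuousOn ((hB' j).continuousOn.mono (hsub j))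
    apply IsCompact.nonempty_iInter_of_sequence_nonempty_isCompact_isClosed
    · rintro j _ ⟨w, hw, rfl⟩
      have h1 := (hE' (j + 1) w (hsub (j + 1) hw)).1
      refine ⟨f^[j + 1] (g (j + 1 + 1) w), hnest j (h1 (j + 1) le_rfl), hC (j + 1) _ h1⟩
    · intro j
      exact ⟨_, ⟨0, mem_closedBall_self (by have := hρ j; positivity), rfl⟩⟩
    · exact hc 0
    · exact fun j => (hc j).isClosed
  obtain ⟨p, hp⟩ := hcomp
  rw [mem_iInter] at hp
  have hpD : ∀ j, p ∈ D j := by
    intro j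
    obtain ⟨w, hw, hwp⟩ := hp j
    rw [← hwp]
    exact (hE' j w (hsub j hw)).1
  refine ⟨p, fun j => hpD j j le_rfl, ?_⟩
  intro ε hε
  have hlim : Tendsto (fun j : ℕ => 2 * d 0 / 2 ^ j) atTop (𝓝 0) := by
    have h1 : Tendsto (fun j : ℕ => (1 / 2 : ℝ) ^ j) atTop (𝓝 0) :=
      tendsto_pow_atTop_nhds_zero_of_lt_one (by norm_num) (by norm_num)
    have h2 := h1.const_mul (2 * d 0)
    rw [mul_zero] at h2
    refine h2.congr fun j => ?_
    rw [one_div, inv_pow]
    ring
  obtain ⟨j, hj⟩ := (hlim.eventually (gt_mem_nhds hε)).exists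
  refine ⟨j, fun x hx => lt_of_le_of_lt (hdiam j x hx p (hpD j)) hj, ?_⟩
  have h0 : (0 : ℂ) ∈ ball (0 : ℂ) (ρ j) := mem_ball_self (hρ j)
  exact ⟨g (j + 1) 0, (hE' j 0 h0).1, (hE' j 0 h0).2⟩

theorem task (hABS1 : StABS1) : StABS2 := by
  intro f v s t δ σ c H k ω
  obtain ⟨-, -, hann, -, -, hdown, -⟩ := hABS1 f v s t δ σ c H
  choose φ hφd hφm hφf hφi using H.inv
  have hnest : ∀ j, ball (c (ω (j + 1)) (k + (j + 1))) (δ (k + (j + 1))) ⊆
      closedBall (0 : ℂ) (σ (k + j) / 10) := by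
    intro j z hz
    rw [mem_closedBall_zero_iff]
    rw [mem_ball, dist_eq_norm] at hz
    have h1 := H.nest (ω (j + 1)) (k + j)
    have h2 : k + j + 1 = k + (j + 1) := by ring
    rw [h2] at h1
    have h3 : ‖z‖ ≤ ‖z - c (ω (j + 1)) (k + (j + 1))‖ + ‖c (ω (j + 1)) (k + (j + 1))‖ := by
      simpa using norm_add_le (z - c (ω (j + 1)) (k + (j + 1))) (c (ω (j + 1)) (k + (j + 1)))
    linarith
  obtain ⟨p, hp, hε⟩ := abs2 f (fun j => c (ω j) (k + j)) (fun j => δ (k + j))
    (fun j => σ (k + j)) (fun j => φ (ω j) (k + j)) (fun j => H.hδ _) (fun j => H.hσ _)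
    (fun j => hφd _ _) (fun j => hφm _ _) (fun j => hφf _ _) (fun j => hφi _ _) hnest
  refine ⟨p, hp, ?_⟩
  intro ε hεp
  obtain ⟨j, hj, q, hq, hqf⟩ := hε ε hεp
  set D : Set ℂ := {z | ∀ i ≤ j, f^[i] z ∈ ball (c (ω i) (k + i)) (δ (k + i))} with hD
  have hDo : IsOpen D := by
    have : D = ⋂ i ∈ Finset.range (j + 1), f^[i] ⁻¹' ball (c (ω i) (k + i)) (δ (k + i)) := by
      ext z
      simp only [hD, mem_iInter, Finset.mem_range, mem_preimage, Set.mem_ofPred_eq]
      constructor
      · intro h i hi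
        exact h i (by omega)
      · intro h i hi
        exact h i (by omega)
    rw [this]
    exact isOpen_biInter_finset fun i _ => isOpen_ball.preimage (H.df.continuous.iterate i)
  have hcb : ∀ i : ℕ, ∀ z : ℂ, z ∈ closedBall (c (ω i) (k + i)) (δ (k + i)) → ‖z‖ < v (k + i) := by
    intro i z hz
    rw [mem_closedBall, dist_eq_norm] at hz
    have h1 := H.cv (ω i) (k + i)
    have h3 : ‖z‖ ≤ ‖z - c (ω i) (k + i)‖ + ‖c (ω i) (k + i)‖ := by
      simpa using norm_add_le (z - c (ω i) (k + i)) (c (ω i) (k + i))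
    linarith
  refine ⟨D, hDo, fun i _ => hp i, fun x hx => hj x hx, ?_, ?_, q, hq, j + 1, hqf⟩
  · intro z hz
    have h1 := hz 0 (by omega)
    have h2 := hcb 0 z (ball_subset_closedBall h1)
    rw [mem_ball_zero_iff]
    exact h2
  · intro z hz
    rw [hDo.frontier_eq] at hz
    obtain ⟨hz1, hz2⟩ := hz
    have hcl : ∀ i ≤ j, f^[i] z ∈ closedBall (c (ω i) (k + i)) (δ (k + i)) := by
      intro i hi
      have hclosed : IsClosed (f^[i] ⁻¹' closedBall (c (ω i) (k + i)) (δ (k + i))) :=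
        isClosed_closedBall.preimage (H.df.continuous.iterate i)
      have hsub : D ⊆ f^[i] ⁻¹' closedBall (c (ω i) (k + i)) (δ (k + i)) := fun x hx =>
        ball_subset_closedBall (hx i hi)
      exact closure_minimal hsub hclosed hz1
    have hex : ∃ i ≤ j, f^[i] z ∉ ball (c (ω i) (k + i)) (δ (k + i)) := by
      by_contra hcon
      push Not at hcon
      exact hz2 hcon
    obtain ⟨i, hij, hi⟩ := hex
    have heq : ‖f^[i] z - c (ω i) (k + i)‖ = δ (k + i) := by
      have h1 := hcl i hij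
      rw [mem_closedBall, dist_eq_norm] at h1
      rw [mem_ball, dist_eq_norm, not_lt] at hi
      exact le_antisymm h1 hi
    have hs := H.sph (ω i) (k + i) (f^[i] z) heq
    have hU : ∀ i' : ℕ, i' ≤ i → f^[i'] z ∈ UU f s t (k + i') := by
      intro i' hi'
      obtain ⟨e, he⟩ : ∃ e, i = i' + e := ⟨i - i', by omega⟩
      have main : ∀ e : ℕ, ∀ i' : ℕ, i = i' + e → f^[i'] z ∈ UU f s t (k + i') := by
        intro e
        induction e with
        | zero =>
          intro i' h
          have h' : i' = i := by omega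
          subst h'
          apply hdown _ _ (hcb i' _ (hcl i' hij)).le
          exact hann _ _ hs.1 hs.2
        | succ e ih =>
          intro i' h
          apply hdown _ _ (hcb i' _ (hcl i' (by omega))).le
          have := ih (i' + 1) (by omega)
          rw [Function.iterate_succ_apply'] at this
          exact this
      exact main e i' he
    exact hU 0 (by omega)

end Pool.Agent.W308.SG.ABS2
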